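import Pool.Agent.helper26.PC.GEN

/-!
# PC project, module HREL: relations of the generators of the Hecke algebra of type B
-/

namespace Pool.Agent.helper27.PC

open Module Polynomial

/-- the permutation of the coordinates -/
noncomputable def HREL_pi (n : ℕ) : W n →* Equiv.Perm (Fin n) :=
  MonoidHom.mk' (fun w => Equiv.ofBijective (fun j => (w.1 (j, true)).1)
    (Finite.injective_iff_bijective.mp (by
      intro j j' hj
      simp only at hj
      by_cases h : (w.1 (j, true)).2 = (w.1 (j', true)).2
      · have : w.1 (j, true) = w.1 (j', true) := Prod.ext hj h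
        exact congrArg Prod.fst (w.1.injective this)
      · have h2 : (w.1 (j', false)).2 = !(w.1 (j', true)).2 := by
          have := GEN_snd w j' true
          simpa using this
        have h3 : (w.1 (j, true)).2 = (w.1 (j', false)).2 := by
          rw [h2]
          revert h
          cases (w.1 (j, true)).2 <;> cases (w.1 (j', true)).2 <;> simp
        have : w.1 (j, true) = w.1 (j', false) :=
          Prod.ext (by rw [hj, GEN_fst w j' false]) h3
        exact congrArg Prod.fst (w.1.injective this)))) (by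
    intro w w'
    apply Equiv.ext
    intro j
    show ((w * w').1 (j, true)).1 = (w.1 ((w'.1 (j, true)).1, true)).1
    have e : (w * w').1 (j, true) = w.1 ((w'.1 (j, true)).1, (w'.1 (j, true)).2) := rfl
    rw [e, GEN_fst])

theorem HREL_pi_apply {n : ℕ} (w : W n) (j : Fin n) : HREL_pi n w j = (w.1 (j, true)).1 := rfl

theorem HREL_g {n i : ℕ} (h : i < n) : g n i = gen n ⟨i, h⟩ := by
  unfold g
  rw [dif_pos h]

theorem HREL_gs {n i : ℕ} (hi : 0 < i) (h : i < n) :
    g n i = GEN_iota n (Equiv.swap ⟨i - 1, by omega⟩ ⟨i, h⟩) := by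
  rw [HREL_g h]
  apply Subtype.ext
  show genPerm n ⟨i, h⟩ = _
  unfold genPerm
  rw [if_neg (by simp; omega)]
  rfl

theorem HREL_g0 {n : ℕ} (h : 0 < n) : g n 0 = GEN_t n ⟨0, h⟩ := by
  rw [HREL_g h]
  apply Subtype.ext
  show genPerm n ⟨0, h⟩ = _
  unfold genPerm
  rw [if_pos rfl]
  rfl

/-- parity of the length -/
noncomputable def HREL_eps (n : ℕ) : W n →* ℤˣ :=
  MonoidHom.mk' (fun w => Equiv.Perm.sign w.1 * Equiv.Perm.sign (HREL_pi n w)) (by
    intro a b
    rw [map_mul (HREL_pi n), map_mul Equiv.Perm.sign]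
    have : Equiv.Perm.sign ((a * b : W n) : Equiv.Perm (Fin n × Bool)) =
        Equiv.Perm.sign a.1 * Equiv.Perm.sign b.1 := by
      rw [← map_mul]; rfl
    rw [this, mul_mul_mul_comm])

theorem HREL_eps_gen {n : ℕ} (i : Fin n) : HREL_eps n (gen n i) = -1 := by
  show Equiv.Perm.sign (genPerm n i) * Equiv.Perm.sign (HREL_pi n (gen n i)) = -1
  have hgi : gen n i = g n i.val := by rw [HREL_g i.isLt]
  rcases Nat.eq_zero_or_pos i.val with h | h
  · have h1 : Equiv.Perm.sign (genPerm n i) = -1 := by
      unfold genPerm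
      rw [if_pos h]
      exact Equiv.Perm.sign_swap (by simp)
    have h2 : HREL_pi n (gen n i) = 1 := by
      apply Equiv.ext
      intro j
      rw [HREL_pi_apply]
      show (genPerm n i (j, true)).1 = j
      unfold genPerm
      rw [if_pos h]
      by_cases hj : j = i
      · subst hj
        simp
      · rw [Equiv.swap_apply_of_ne_of_ne] <;> simp [Prod.ext_iff, hj]
    rw [h1, h2, map_one, mul_one]
  · have hne : (⟨i.val - 1, by omega⟩ : Fin n) ≠ i := by
      intro h'
      have := congrArg Fin.val h'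
      simp at this
      omega
    have h1 : Equiv.Perm.sign (genPerm n i) = 1 := by
      have e : genPerm n i = Equiv.prodCongrLeft (fun _ : Bool =>
          Equiv.swap (⟨i.val - 1, by omega⟩ : Fin n) i) := by
        unfold genPerm
        rw [if_neg (by omega)]
        apply Equiv.ext
        rintro ⟨j, b⟩
        rfl
      rw [e, Equiv.Perm.sign_prodCongrLeft]
      rw [Finset.prod_const, Equiv.Perm.sign_swap hne]
      simp
    have h2 : HREL_pi n (gen n i) = Equiv.swap (⟨i.val - 1, by omega⟩ : Fin n) i := by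
      apply Equiv.ext
      intro j
      rw [HREL_pi_apply, hgi, HREL_gs h i.isLt]
      rfl
    rw [h1, h2, Equiv.Perm.sign_swap hne, one_mul]

theorem HREL_eps_word {n : ℕ} (l : List (Fin n)) :
    HREL_eps n (l.map (gen n)).prod = (-1) ^ l.length := by
  induction l with
  | nil => simp
  | cons a l ih => rw [List.map_cons, List.prod_cons, map_mul, ih, HREL_eps_gen, List.length_cons,
      pow_succ, mul_comm]

/-- words with natural numbers as letters -/
theorem HREL_word {n : ℕ} (l : List ℕ) (hl : ∀ i ∈ l, i < n) :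
    ∃ l' : List (Fin n), l'.length = l.length ∧ (l'.map (gen n)).prod = (l.map (g n)).prod := by
  induction l with
  | nil => exact ⟨[], rfl, rfl⟩
  | cons a l ih =>
    obtain ⟨l', h1, h2⟩ := ih (fun i hi => hl i (List.mem_cons_of_mem _ hi))
    have ha := hl a List.mem_cons_self
    refine ⟨(⟨a, ha⟩ : Fin n) :: l', by simp [h1], ?_⟩
    rw [List.map_cons, List.map_cons, List.prod_cons, List.prod_cons, h2, HREL_g ha]

theorem HREL_len {n : ℕ} (l : List ℕ) (hl : ∀ i ∈ l, i < n)
    (h : ∀ l' : List (Fin n), l'.length < l.length → l'.length % 2 = l.length % 2 →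
      (l'.map (gen n)).prod ≠ (l.map (g n)).prod) : len ((l.map (g n)).prod) = l.length := by
  obtain ⟨l₀, h1, h2⟩ := HREL_word l hl
  unfold len
  apply le_antisymm
  · exact Nat.sInf_le (show l.length ∈ {k | ∃ l' : List (Fin n), l'.length = k ∧
        (l'.map (gen n)).prod = (l.map (g n)).prod} from ⟨l₀, h1, h2⟩)
  · apply le_csInf (show Set.Nonempty {k | ∃ l' : List (Fin n), l'.length = k ∧
        (l'.map (gen n)).prod = (l.map (g n)).prod} from ⟨l.length, l₀, h1, h2⟩)
    rintro k ⟨l', h3, h4⟩
    by_contra hk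
    push Not at hk
    rw [← h3] at hk
    refine h l' hk ?_ h4
    have e1 := HREL_eps_word l'
    have e2 := HREL_eps_word l₀
    rw [h4, ← h2, e2, h1] at e1
    rcases Nat.even_or_odd l.length with h5 | h5 <;> rcases Nat.even_or_odd l'.length with h6 | h6
    · rw [Nat.even_iff] at h5 h6; omega
    · rw [h5.neg_one_pow, h6.neg_one_pow] at e1
      exact absurd e1 (by decide)
    · rw [h5.neg_one_pow, h6.neg_one_pow] at e1
      exact absurd e1 (by decide)
    · rw [Nat.odd_iff] at h5 h6; omega

/-- a word of length two -/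
theorem HREL_len2 {n i j : ℕ} (hi : i < n) (hj : j < n) (h : g n i * g n j ≠ 1) :
    len (([i, j].map (g n)).prod) = 2 := by
  have := HREL_len (n := n) [i, j] (by simp; exact ⟨hi, hj⟩) ?_
  · exact this
  · intro l' h1 h2
    have : l'.length = 0 := by
      simp at h1 h2
      omega
    rw [List.length_eq_zero_iff] at this
    subst this
    simp only [List.map_nil, List.prod_nil, List.map_cons, List.prod_cons, mul_one]
    exact fun h' => h h'.symm

/-- a word of length three -/
theorem HREL_len3 {n i j k : ℕ} (hi : i < n) (hj : j < n) (hk : k < n)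
    (h : ∀ a : Fin n, gen n a ≠ g n i * g n j * g n k) :
    len (([i, j, k].map (g n)).prod) = 3 := by
  have := HREL_len (n := n) [i, j, k] (by simp; exact ⟨hi, hj, hk⟩) ?_
  · exact this
  · intro l' h1 h2
    have : l'.length = 1 := by
      simp at h1 h2
      omega
    rw [List.length_eq_one_iff] at this
    obtain ⟨a, rfl⟩ := this
    simp only [List.map_nil, List.prod_nil, List.map_cons, List.prod_cons, mul_one]
    rw [← mul_assoc]
    exact h a

/-- a word of length four -/
theorem HREL_len4 {n i j k l : ℕ} (hi : i < n) (hj : j < n) (hk : k < n) (hl : l < n)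
    (h0 : g n i * g n j * g n k * g n l ≠ 1)
    (h : ∀ a b : Fin n, gen n a * gen n b ≠ g n i * g n j * g n k * g n l) :
    len (([i, j, k, l].map (g n)).prod) = 4 := by
  have := HREL_len (n := n) [i, j, k, l] (by simp; exact ⟨hi, hj, hk, hl⟩) ?_
  · exact this
  · intro l' h1 h2
    have : l'.length = 0 ∨ l'.length = 2 := by
      simp at h1 h2
      omega
    simp only [List.map_nil, List.prod_nil, List.map_cons, List.prod_cons, mul_one]
    rw [← mul_assoc, ← mul_assoc]
    rcases this with this | this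
    · rw [List.length_eq_zero_iff] at this
      subst this
      simp only [List.map_nil, List.prod_nil]
      exact fun h' => h0 h'.symm
    · rw [List.length_eq_two] at this
      obtain ⟨a, b, rfl⟩ := this
      simp only [List.map_nil, List.prod_nil, List.map_cons, List.prod_cons, mul_one]
      exact h a b

/-! ### values -/

theorem HREL_e0 {n : ℕ} (h : 0 < n) (j : Fin n) (b : Bool) :
    (g n 0).1 (j, b) = if j.val = 0 then (j, !b) else (j, b) := by
  rw [HREL_g0 h, GEN_t_apply]
  by_cases hj : j.val = 0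
  · rw [if_pos hj, if_pos (Fin.ext hj)]
  · rw [if_neg hj, if_neg (fun h' => hj (congrArg Fin.val h'))]

theorem HREL_es {n i : ℕ} (hi : 0 < i) (h : i < n) (j : Fin n) (b : Bool) :
    (g n i).1 (j, b) = (Equiv.swap ⟨i - 1, by omega⟩ ⟨i, h⟩ j, b) := by
  rw [HREL_gs hi h, GEN_iota_apply]

theorem HREL_swap {n i : ℕ} (hi : 0 < i) (h : i < n) (j : Fin n) :
    (Equiv.swap (⟨i - 1, by omega⟩ : Fin n) ⟨i, h⟩ j).val =
      if j.val = i then i - 1 else if j.val + 1 = i then i else j.val := by
  rw [Equiv.swap_apply_def]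
  split_ifs with h1 h2 h3 h4 h5 h6 h7 h8
  · exfalso
    have := congrArg Fin.val h1
    simp only at this
    omega
  · rfl
  · exfalso
    have := congrArg Fin.val h1
    simp only at this
    omega
  · rfl
  · exfalso
    have := congrArg Fin.val h4
    simp only at this
    omega
  · exfalso
    have := congrArg Fin.val h4
    simp only at this
    omega
  · exfalso
    exact h4 (Fin.ext h7)
  · exfalso
    apply h1
    apply Fin.ext
    simp only
    omega
  · rfl

theorem HREL_ch {n : ℕ} (c : Fin n) (z : Fin n × Bool) (h : ((gen n c).1 z).2 ≠ z.2) :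
    z.1.val = 0 ∧ ((gen n c).1 z).1 = z.1 := by
  obtain ⟨j, b⟩ := z
  have hg : gen n c = g n c.val := by rw [HREL_g c.isLt]
  rw [hg] at h ⊢
  rcases Nat.eq_zero_or_pos c.val with h0 | h0
  · rw [h0, HREL_e0 (by have := c.isLt; omega)] at h ⊢
    by_cases hj : j.val = 0
    · rw [if_pos hj]
      exact ⟨hj, rfl⟩
    · rw [if_neg hj] at h
      exact absurd rfl h
  · rw [HREL_es h0 c.isLt] at h
    exact absurd rfl h

theorem HREL_mv {n : ℕ} (c : Fin n) (z : Fin n × Bool) :
    ((gen n c).1 z).1.val ≤ z.1.val + 1 := by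
  obtain ⟨j, b⟩ := z
  have hg : gen n c = g n c.val := by rw [HREL_g c.isLt]
  rw [hg]
  rcases Nat.eq_zero_or_pos c.val with h0 | h0
  · rw [h0, HREL_e0 (by have := c.isLt; omega)]
    split_ifs <;> simp
  · rw [HREL_es h0 c.isLt]
    simp only
    rw [HREL_swap h0 c.isLt]
    split_ifs <;> omega

theorem HREL_ext {n : ℕ} {a b : W n} (h : ∀ j c, (a.1 (j, c)).1.val = (b.1 (j, c)).1.val ∧
    (a.1 (j, c)).2 = (b.1 (j, c)).2) : a = b := by
  apply Subtype.ext
  apply Equiv.ext
  rintro ⟨j, c⟩
  exact Prod.ext (Fin.ext (h j c).1) (h j c).2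

theorem HREL_mul2 {n : ℕ} (a b : W n) (x : Fin n × Bool) : (a * b).1 x = a.1 (b.1 x) := rfl

theorem HREL_mul3 {n : ℕ} (a b c : W n) (x : Fin n × Bool) :
    (a * b * c).1 x = a.1 (b.1 (c.1 x)) := rfl

theorem HREL_mul4 {n : ℕ} (a b c d : W n) (x : Fin n × Bool) :
    (a * b * c * d).1 x = a.1 (b.1 (c.1 (d.1 x))) := rfl

/-- action in terms of natural numbers -/
def HREL_act (i : ℕ) (x : ℕ × Bool) : ℕ × Bool :=
  if i = 0 then (if x.1 = 0 then (x.1, !x.2) else x)
  else (if x.1 = i then i - 1 else if x.1 + 1 = i then i else x.1, x.2)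

theorem HREL_act_eq {n i : ℕ} (h : i < n) (x : Fin n × Bool) :
    ((((g n i).1 x).1.val, ((g n i).1 x).2) : ℕ × Bool) = HREL_act i (x.1.val, x.2) := by
  obtain ⟨j, b⟩ := x
  unfold HREL_act
  rcases Nat.eq_zero_or_pos i with h0 | h0
  · subst h0
    rw [if_pos rfl, HREL_e0 h]
    simp only
    split_ifs <;> rfl
  · rw [if_neg (by omega), HREL_es h0 h]
    simp only
    rw [HREL_swap h0 h]

theorem HREL_ext2 {n : ℕ} {a b : W n} (h : ∀ x : Fin n × Bool,
    (((a.1 x).1.val, (a.1 x).2) : ℕ × Bool) = ((b.1 x).1.val, (b.1 x).2)) : a = b := by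
  apply HREL_ext
  intro j c
  have := h (j, c)
  rw [Prod.mk.injEq] at this
  exact this

theorem HREL_actp {i : ℕ} (h : 0 < i) (x : ℕ × Bool) : HREL_act i x =
    (if x.1 = i then i - 1 else if x.1 + 1 = i then i else x.1, x.2) := by
  unfold HREL_act
  rw [if_neg (by omega)]

theorem HREL_comm {n i j : ℕ} (hij : i + 1 < j) (hj : j < n) : g n i * g n j = g n j * g n i := by
  apply HREL_ext2
  intro x
  rw [HREL_mul2, HREL_mul2, HREL_act_eq (by omega), HREL_act_eq hj, HREL_act_eq hj,
    HREL_act_eq (by omega)]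
  unfold HREL_act
  split_ifs <;> simp_all <;> omega

theorem HREL_braid {n i : ℕ} (hi : 1 ≤ i) (h : i + 1 < n) :
    g n i * g n (i + 1) * g n i = g n (i + 1) * g n i * g n (i + 1) := by
  apply HREL_ext2
  intro x
  rw [HREL_mul3, HREL_mul3, HREL_act_eq (by omega), HREL_act_eq h, HREL_act_eq (by omega),
    HREL_act_eq h, HREL_act_eq (by omega), HREL_act_eq h]
  rw [HREL_actp (by omega : 0 < i), HREL_actp (by omega : 0 < i + 1),
    HREL_actp (by omega : 0 < i), HREL_actp (by omega : 0 < i + 1),
    HREL_actp (by omega : 0 < i), HREL_actp (by omega : 0 < i + 1)]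
  apply Prod.ext
  · simp only
    split_ifs <;> omega
  · rfl

theorem HREL_braid0 {n : ℕ} (h : 1 < n) :
    g n 0 * g n 1 * g n 0 * g n 1 = g n 1 * g n 0 * g n 1 * g n 0 := by
  apply HREL_ext2
  rintro ⟨⟨j, hj⟩, b⟩
  rw [HREL_mul4, HREL_mul4]
  repeat rw [HREL_act_eq (by omega)]
  unfold HREL_act
  rcases j with _ | _ | j
  · simp
  · simp
  · simp

theorem HREL_ne1 {n : ℕ} {w : W n} (x : Fin n × Bool) (h : w.1 x ≠ x) : w ≠ 1 := by
  rintro rfl
  exact h rfl

theorem HREL_T2 {n : ℕ} {H : Type} [Ring H] [Algebra A H] {T : Basis (W n) A H}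
    (h : ∀ l : List ℕ, (∀ i ∈ l, i < n) → len ((l.map (g n)).prod) = l.length →
      T ((l.map (g n)).prod) = (l.map fun i => T (g n i)).prod) {i j : ℕ} (hi : i < n) (hj : j < n)
    (hl : len (([i, j].map (g n)).prod) = 2) : T (g n i * g n j) = T (g n i) * T (g n j) := by
  have := h [i, j] (by simp; exact ⟨hi, hj⟩) hl
  simpa using this

theorem HREL_T3 {n : ℕ} {H : Type} [Ring H] [Algebra A H] {T : Basis (W n) A H}
    (h : ∀ l : List ℕ, (∀ i ∈ l, i < n) → len ((l.map (g n)).prod) = l.length →
      T ((l.map (g n)).prod) = (l.map fun i => T (g n i)).prod) {i j k : ℕ} (hi : i < n)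
    (hj : j < n) (hk : k < n) (hl : len (([i, j, k].map (g n)).prod) = 3) :
    T (g n i * g n j * g n k) = T (g n i) * T (g n j) * T (g n k) := by
  have := h [i, j, k] (by simp; exact ⟨hi, hj, hk⟩) hl
  simp only [List.map_cons, List.map_nil, List.prod_cons, List.prod_nil, mul_one] at this
  rw [mul_assoc, this, mul_assoc]

theorem HREL_T4 {n : ℕ} {H : Type} [Ring H] [Algebra A H] {T : Basis (W n) A H}
    (h : ∀ l : List ℕ, (∀ i ∈ l, i < n) → len ((l.map (g n)).prod) = l.length →
      T ((l.map (g n)).prod) = (l.map fun i => T (g n i)).prod) {i j k m : ℕ} (hi : i < n)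
    (hj : j < n) (hk : k < n) (hm : m < n) (hl : len (([i, j, k, m].map (g n)).prod) = 4) :
    T (g n i * g n j * g n k * g n m) = T (g n i) * T (g n j) * T (g n k) * T (g n m) := by
  have := h [i, j, k, m] (by simp; exact ⟨hi, hj, hk, hm⟩) hl
  simp only [List.map_cons, List.map_nil, List.prod_cons, List.prod_nil, mul_one] at this
  rw [mul_assoc, mul_assoc, this, mul_assoc, mul_assoc]

theorem HREL_vvi : v * vi = 1 := by
  unfold v vi
  rw [← LaurentPolynomial.T_add]
  simp

theorem HREL (hTW : TW_stmt) : HREL_stmt := by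
  intro n H _ _ T hT
  obtain ⟨-, hw⟩ := hTW n H T hT
  refine ⟨?_, ?_, ?_, ?_⟩
  · intro i hi
    have h := hT.quad ⟨i, hi⟩
    rw [← HREL_g hi] at h
    set t := T (g n i) with ht
    have c1 : algebraMap A H v * t = t * algebraMap A H v := Algebra.commutes _ _
    have e : (t + algebraMap A H vi) * (t - algebraMap A H v) =
        t * t - (algebraMap A H (v - vi)) * t - 1 := by
      have e2 : algebraMap A H vi * algebraMap A H v = 1 := by
        rw [← map_mul, mul_comm, HREL_vvi, map_one]
      rw [add_mul, mul_sub, mul_sub, e2, ← c1, map_sub, sub_mul]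
      abel
    rw [e] at h
    have h2 : t * t = algebraMap A H (v - vi) * t + 1 := by
      have := sub_eq_zero.mp (by rw [sub_sub] at h; exact h)
      exact this
    show t * t = (v - vi) • t + 1
    rw [Algebra.smul_def]
    exact h2
  · intro i hi h
    have key : ∀ a : Fin n, gen n a ≠ g n i * g n (i + 1) * g n i := by
      intro a ha
      have h1 := HREL_mv a (⟨i - 1, by omega⟩, true)
      rw [ha, HREL_mul3] at h1
      have e1 := HREL_act_eq (n := n) (i := i) (by omega) (⟨i - 1, by omega⟩, true)
      have e2 := HREL_act_eq (n := n) (i := i + 1) h ((g n i).1 (⟨i - 1, by omega⟩, true))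
      have e3 := HREL_act_eq (n := n) (i := i) (by omega)
        ((g n (i + 1)).1 ((g n i).1 (⟨i - 1, by omega⟩, true)))
      rw [e2, e1] at e3
      rw [HREL_actp (by omega), HREL_actp (by omega), HREL_actp (by omega)] at e3
      have e4 := congrArg Prod.fst e3
      simp only at e4 h1
      rw [e4] at h1
      have : i - 1 + 1 = i := by omega
      split_ifs at h1 <;> omega
    have l1 : len (([i, i + 1, i].map (g n)).prod) = 3 :=
      HREL_len3 (by omega) h (by omega) key
    have l2 : len (([i + 1, i, i + 1].map (g n)).prod) = 3 :=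
      HREL_len3 h (by omega) h (by rw [← HREL_braid hi h]; exact key)
    have t1 := HREL_T3 hw (by omega) h (by omega) l1
    have t2 := HREL_T3 hw h (by omega) h l2
    show T (g n i) * T (g n (i + 1)) * T (g n i) = T (g n (i + 1)) * T (g n i) * T (g n (i + 1))
    rw [← t1, ← t2, HREL_braid hi h]
  · intro h
    have hval : (((((g n 0 * g n 1 * g n 0 * g n 1).1 (⟨1, h⟩, true)).1.val),
        ((g n 0 * g n 1 * g n 0 * g n 1).1 (⟨1, h⟩, true)).2) : ℕ × Bool) = (1, false) := by
      rw [HREL_mul4]
      repeat rw [HREL_act_eq (by omega)]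
      unfold HREL_act
      simp
    have hv2 := congrArg Prod.snd hval
    have hv1 := congrArg Prod.fst hval
    simp only at hv1 hv2
    have key0 : g n 0 * g n 1 * g n 0 * g n 1 ≠ 1 := by
      intro h1
      rw [h1] at hv2
      exact Bool.noConfusion hv2
    have key : ∀ a b : Fin n, gen n a * gen n b ≠ g n 0 * g n 1 * g n 0 * g n 1 := by
      intro a b hab
      rw [← hab, HREL_mul2] at hv1 hv2
      have h1 : ((gen n b).1 (⟨1, h⟩, true)).2 = true := by
        by_contra h2
        have := (HREL_ch b (⟨1, h⟩, true) h2).1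
        simp at this
      have h3 : ((gen n a).1 ((gen n b).1 (⟨1, h⟩, true))).2 ≠ ((gen n b).1 (⟨1, h⟩, true)).2 := by
        rw [h1, hv2]
        decide
      obtain ⟨h4, h5⟩ := HREL_ch a _ h3
      rw [h5, h4] at hv1
      exact absurd hv1 (by decide)
    have l1 : len (([0, 1, 0, 1].map (g n)).prod) = 4 :=
      HREL_len4 (by omega) h (by omega) h key0 key
    have l2 : len (([1, 0, 1, 0].map (g n)).prod) = 4 :=
      HREL_len4 h (by omega) h (by omega) (by rw [← HREL_braid0 h]; exact key0)
        (by rw [← HREL_braid0 h]; exact key)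
    have t1 := HREL_T4 hw (by omega) h (by omega) h l1
    have t2 := HREL_T4 hw h (by omega) h (by omega) l2
    show T (g n 0) * T (g n 1) * T (g n 0) * T (g n 1) = T (g n 1) * T (g n 0) * T (g n 1) * T (g n 0)
    rw [← t1, ← t2, HREL_braid0 h]
  · intro i j hij hj
    have key : g n i * g n j ≠ 1 := by
      apply HREL_ne1 (⟨j, hj⟩, true)
      intro h1
      have e0 := HREL_act_eq (n := n) (i := j) hj (⟨j, hj⟩, true)
      have e1 := HREL_act_eq (n := n) (i := i) (by omega) ((g n j).1 (⟨j, hj⟩, true))
      rw [HREL_mul2] at h1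
      rw [h1, e0, HREL_actp (i := j) (by omega)] at e1
      have e3 : (if j = j then j - 1 else if j + 1 = j then j else j) = j - 1 := if_pos rfl
      simp only [e3] at e1
      unfold HREL_act at e1
      have e2 := congrArg Prod.fst e1
      simp only at e2
      split_ifs at e2 <;> simp only at e2 <;> omega
    have l1 : len (([i, j].map (g n)).prod) = 2 := HREL_len2 (by omega) hj key
    have l2 : len (([j, i].map (g n)).prod) = 2 :=
      HREL_len2 hj (by omega) (by rw [← HREL_comm hij hj]; exact key)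
    have t1 := HREL_T2 hw (by omega) hj l1
    have t2 := HREL_T2 hw hj (by omega) l2
    show T (g n i) * T (g n j) = T (g n j) * T (g n i)
    rw [← t1, ← t2, HREL_comm hij hj]

end Pool.Agent.helper27.PC
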