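import Pool.Agent.helper68.PC.TR
import Pool.Agent.helper31.PC.LEN
import Pool.Agent.helper31.PC.CH

/-!
# PC project, module NF: the formula for `N_C`
-/

namespace Pool.Agent.helper27.PC

open Module Polynomial

theorem NF_gen_sq {n : ℕ} (i : Fin n) : gen n i * gen n i = 1 := by
  apply Subtype.ext
  change genPerm n i * genPerm n i = 1
  unfold genPerm
  split_ifs with h
  · exact Equiv.swap_mul_self _ _
  · ext x : 1
    simp [Equiv.Perm.mul_apply, Equiv.prodCongr_apply, Prod.map]

theorem NF_g_inv {n : ℕ} (i : ℕ) : (g n i)⁻¹ = g n i := by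
  rw [inv_eq_iff_mul_eq_one]
  unfold g
  split_ifs with h
  · exact NF_gen_sq _
  · simp

theorem NF_prod_inv {n : ℕ} (l : List ℕ) :
    ((l.map (g n)).prod)⁻¹ = (l.reverse.map (g n)).prod := by
  rw [List.prod_inv_reverse, List.map_reverse, List.map_map]
  congr 2
  apply List.map_congr_left
  intro i _
  exact NF_g_inv i

theorem NF_genprod_inv {n : ℕ} (l : List (Fin n)) :
    ((l.map (gen n)).prod)⁻¹ = (l.reverse.map (gen n)).prod := by
  rw [List.prod_inv_reverse, List.map_reverse, List.map_map]
  congr 2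
  apply List.map_congr_left
  intro i _
  change (gen n i)⁻¹ = gen n i
  rw [inv_eq_iff_mul_eq_one]
  exact NF_gen_sq i

theorem NF_len_inv {n : ℕ} (w : W n) : len w⁻¹ = len w := by
  unfold len
  congr 1
  ext k
  constructor
  · rintro ⟨l, h1, h2⟩
    refine ⟨l.reverse, by simpa using h1, ?_⟩
    rw [← NF_genprod_inv, h2, inv_inv]
  · rintro ⟨l, h1, h2⟩
    refine ⟨l.reverse, by simpa using h1, ?_⟩
    rw [← NF_genprod_inv, h2]

theorem NF_ends {n : ℕ} : ∀ {S S' : St} {p : List Lab}, p ∈ paths n S S' → S' ∈ ends n S := by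
  induction n with
  | zero =>
    intro S S' p hp
    unfold paths at hp
    unfold ends
    split_ifs at hp with h
    · simp [h]
    · simp at hp
  | succ n ih =>
    intro S S' p hp
    unfold paths at hp
    unfold ends
    rw [Finset.mem_biUnion] at hp ⊢
    obtain ⟨l, hl, hp⟩ := hp
    obtain ⟨q, hq, rfl⟩ := Finset.mem_image.1 hp
    exact ⟨l, hl, ih hq⟩

theorem NF_trP {K : Type*} [Field K] (n : ℕ) (S M : St) (φ : Module.End K (List Lab →₀ K))
    (h : M ∉ ends n S) : trP n S M φ = 0 := by
  unfold trP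
  apply Finset.sum_eq_zero
  intro w hw
  exact absurd (NF_ends hw) h

theorem NF (hTR : TR_stmt) (hCH : CH_stmt) (hLEN : LEN_stmt) (hTW : TW_stmt) : NF_stmt := by
  classical
  intro n H _ _ T hT l hn hl
  let K := FractionRing A
  have hinj : Function.Injective (algebraMap A K) := IsFractionRing.injective A K
  have hgen : Generic (algebraMap A K v) := TR_generic K hinj
  have hlt : ∀ i ∈ stdWord 0 l, i < n := LEN_word_lt l hl.1 0 (by have := hl.2.2; omega)
  have hlt' : ∀ i ∈ (stdWord 0 l).reverse, i < n := fun i hi => hlt i (by simpa using hi)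
  have hlen : len (std n l) = (stdWord 0 l).length := (hLEN n l hl).1
  have h1 : T (std n l) = ((stdWord 0 l).map fun i => T (g n i)).prod :=
    (hTW n H T hT).2 _ hlt hlen
  have h2 : T (std n l)⁻¹ = ((stdWord 0 l).reverse.map fun i => T (g n i)).prod := by
    have e : (std n l)⁻¹ = ((stdWord 0 l).reverse.map (g n)).prod := NF_prod_inv _
    rw [e]
    apply (hTW n H T hT).2 _ hlt'
    rw [← e, NF_len_inv, hlen, List.length_reverse]
  apply hinj
  have hN : N T (std n l) = v ^ (2 * len (std n l)) * LinearMap.trace A H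
      (LinearMap.mulLeft A (((stdWord 0 l).map fun i => T (g n i)).prod) ∘ₗ
      LinearMap.mulRight A (((stdWord 0 l).reverse.map fun i => T (g n i)).prod)) := by
    have e0 : ∀ (c : A) (a b : H), LinearMap.mulLeft A (c • a) ∘ₗ LinearMap.mulRight A b =
        c • (LinearMap.mulLeft A a ∘ₗ LinearMap.mulRight A b) := by
      intro c a b
      ext x
      simp
    unfold N
    rw [← h1, ← h2, e0, (LinearMap.trace A H).map_smul, smul_eq_mul]
  rw [hN, map_mul, hTR n H T hT hn K hinj _ _ hlt hlt', hlen, map_pow]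
  set q := algebraMap A K v with hq
  set f : St → K := fun S' => (vec n l S').eval₂ (Int.castRingHom K) (q ^ 2) with hf
  have hL : q ^ (2 * (stdWord 0 l).length) * ∑ S ∈ ends n (vac n),
      trP n (vac n) S (opW q n (stdWord 0 l)) * trP n (vac n) S (opW q n (stdWord 0 l).reverse) =
      ∑ S ∈ ends n (vac n), f S ^ 2 := by
    rw [Finset.mul_sum]
    apply Finset.sum_congr rfl
    intro S _
    obtain ⟨c1, c2⟩ := hCH K q hgen n l hl S
    have : f S ^ 2 = (q ^ (stdWord 0 l).length * trP n (vac n) S (opW q n (stdWord 0 l))) *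
        (q ^ (stdWord 0 l).length * trP n (vac n) S (opW q n (stdWord 0 l).reverse)) := by
      rw [c1, c2, sq]
    rw [this, two_mul, pow_add]
    ring
  rw [hL]
  have hR : algebraMap A K (aeval (v ^ 2) (P n l)) = ∑ S ∈ (vec n l).support, f S ^ 2 := by
    have e1 : ∀ p : ℤ[X], algebraMap A K (aeval (v ^ 2) p) =
        p.eval₂ (Int.castRingHom K) (q ^ 2) := by
      intro p
      rw [aeval_def, hom_eval₂, map_pow]
      congr 1
      exact RingHom.ext_int _ _
    rw [e1]
    unfold P
    rw [Finsupp.sum, eval₂_finset_sum]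
    apply Finset.sum_congr rfl
    intro S _
    rw [eval₂_pow]
  rw [hR]
  have z1 : ∀ S, S ∉ ends n (vac n) → f S ^ 2 = 0 := by
    intro S hS
    have := (hCH K q hgen n l hl S).1
    rw [NF_trP n (vac n) S _ hS, mul_zero] at this
    rw [hf]
    simp only
    rw [← this]
    ring
  have z2 : ∀ S, S ∉ (vec n l).support → f S ^ 2 = 0 := by
    intro S hS
    rw [hf]
    simp only
    rw [Finsupp.notMem_support_iff.1 hS, eval₂_zero]
    ring
  have u1 : ∑ S ∈ ends n (vac n), f S ^ 2 = ∑ S ∈ ends n (vac n) ∪ (vec n l).support, f S ^ 2 :=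
    Finset.sum_subset Finset.subset_union_left (fun S _ h => z1 S h)
  have u2 : ∑ S ∈ (vec n l).support, f S ^ 2 =
      ∑ S ∈ ends n (vac n) ∪ (vec n l).support, f S ^ 2 :=
    Finset.sum_subset Finset.subset_union_right (fun S _ h => z2 S h)
  rw [u1, u2]

end Pool.Agent.helper27.PC
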