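import Pool.Agent.helper27.PC.Stmt

/-!
# PC project, module GEN: the simple reflections generate the group of signed permutations
-/

namespace Pool.Agent.helper27.PC

open Module Polynomial

/-- elements that are words in the generators -/
def GEN_M (n : ℕ) : Submonoid (W n) := MonoidHom.mrange (FreeMonoid.lift (gen n))

theorem GEN_mem {n : ℕ} {w : W n} : w ∈ GEN_M n ↔ ∃ l : List (Fin n), (l.map (gen n)).prod = w := by
  unfold GEN_M
  rw [MonoidHom.mem_mrange]
  constructor
  · rintro ⟨l, hl⟩
    exact ⟨FreeMonoid.toList l, by rw [← hl, FreeMonoid.lift_apply]⟩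
  · rintro ⟨l, hl⟩
    exact ⟨FreeMonoid.ofList l, by rw [FreeMonoid.lift_apply]; exact hl⟩

theorem GEN_gen {n : ℕ} (i : Fin n) : gen n i ∈ GEN_M n := by
  rw [GEN_mem]
  exact ⟨[i], by simp⟩

/-- permutations without sign changes -/
def GEN_iota (n : ℕ) : Equiv.Perm (Fin n) →* W n where
  toFun σ := ⟨σ.prodCongr (Equiv.refl Bool), by
    rw [mem_W]
    rintro ⟨j, b⟩
    simp [Equiv.prodCongr_apply, Prod.map]⟩
  map_one' := by
    apply Subtype.ext
    apply Equiv.ext
    rintro ⟨j, b⟩
    rfl
  map_mul' σ τ := by
    apply Subtype.ext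
    apply Equiv.ext
    rintro ⟨j, b⟩
    rfl

theorem GEN_iota_apply (n : ℕ) (σ : Equiv.Perm (Fin n)) (j : Fin n) (b : Bool) :
    (GEN_iota n σ).1 (j, b) = (σ j, b) := rfl

theorem GEN_iota_mem (n : ℕ) (σ : Equiv.Perm (Fin n)) : GEN_iota n σ ∈ GEN_M n := by
  rcases n with _ | m
  · have : σ = 1 := Subsingleton.elim _ _
    rw [this, map_one]
    exact one_mem _
  · have h : σ ∈ (⊤ : Submonoid (Equiv.Perm (Fin (m + 1)))) := Submonoid.mem_top _
    rw [← Equiv.Perm.mclosure_swap_castSucc_succ m] at h
    induction h using Submonoid.closure_induction with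
    | mem x hx =>
      obtain ⟨i, rfl⟩ := hx
      have : GEN_iota (m + 1) (Equiv.swap i.castSucc i.succ) = gen (m + 1) i.succ := by
        apply Subtype.ext
        show _ = genPerm (m + 1) i.succ
        unfold genPerm
        rw [if_neg (by simp)]
        congr 1
      rw [this]
      exact GEN_gen _
    | one => rw [map_one]; exact one_mem _
    | mul x y _ _ hx hy => rw [map_mul]; exact mul_mem hx hy

/-- a sign change -/
def GEN_t (n : ℕ) (i : Fin n) : W n := ⟨Equiv.swap (i, true) (i, false), by
  rw [mem_W]
  rintro ⟨j, b⟩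
  by_cases hj : j = i
  · subst hj
    cases b <;> simp [Equiv.swap_apply_left, Equiv.swap_apply_right]
  · rw [Equiv.swap_apply_of_ne_of_ne, Equiv.swap_apply_of_ne_of_ne] <;>
      simp [Prod.ext_iff, hj]⟩

theorem GEN_t_apply (n : ℕ) (i j : Fin n) (b : Bool) :
    (GEN_t n i).1 (j, b) = if j = i then (j, !b) else (j, b) := by
  show Equiv.swap (i, true) (i, false) (j, b) = _
  by_cases hj : j = i
  · subst hj
    rw [if_pos rfl]
    cases b <;> simp [Equiv.swap_apply_left, Equiv.swap_apply_right]
  · rw [if_neg hj, Equiv.swap_apply_of_ne_of_ne] <;> simp [Prod.ext_iff, hj]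

theorem GEN_t_mem (n : ℕ) (i : Fin n) : GEN_t n i ∈ GEN_M n := by
  have hn : 0 < n := lt_of_le_of_lt (Nat.zero_le _) i.isLt
  set o : Fin n := ⟨0, hn⟩ with ho
  have h0 : GEN_t n o ∈ GEN_M n := by
    have : GEN_t n o = gen n o := by
      apply Subtype.ext
      show _ = genPerm n o
      unfold genPerm
      rw [if_pos rfl]
      rfl
    rw [this]
    exact GEN_gen _
  have h : GEN_t n i = GEN_iota n (Equiv.swap o i) * GEN_t n o * GEN_iota n (Equiv.swap o i) := by
    apply Subtype.ext
    apply Equiv.ext
    rintro ⟨j, b⟩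
    have e : (GEN_iota n (Equiv.swap o i) * GEN_t n o * GEN_iota n (Equiv.swap o i)).1 (j, b) =
        (GEN_iota n (Equiv.swap o i)).1 ((GEN_t n o).1 ((GEN_iota n (Equiv.swap o i)).1 (j, b))) :=
      rfl
    rw [e, GEN_iota_apply n (Equiv.swap o i) j b, GEN_t_apply n i j b,
      GEN_t_apply n o (Equiv.swap o i j) b]
    by_cases hj : j = i
    · subst hj
      rw [if_pos rfl, if_pos (Equiv.swap_apply_right _ _), GEN_iota_apply, Equiv.swap_apply_right,
        Equiv.swap_apply_left]
    · rw [if_neg hj, if_neg]
      · rw [GEN_iota_apply]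
        congr 1
        have := congrArg (fun τ : Equiv.Perm (Fin n) => τ j) (Equiv.swap_mul_self o i)
        simp only [Equiv.Perm.mul_apply, Equiv.Perm.one_apply] at this
        exact this.symm
      · intro h
        apply hj
        rw [Equiv.swap_apply_eq_iff, Equiv.swap_apply_left] at h
        exact h
  rw [h]
  exact mul_mem (mul_mem (GEN_iota_mem _ _) h0) (GEN_iota_mem _ _)

theorem GEN_fst {n : ℕ} (w : W n) (j : Fin n) (b : Bool) : (w.1 (j, b)).1 = (w.1 (j, true)).1 := by
  cases b
  · have := (mem_W.mp w.2) (j, true)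
    simp only [Bool.not_true] at this
    rw [this]
  · rfl

theorem GEN_snd {n : ℕ} (w : W n) (j : Fin n) (b : Bool) :
    (w.1 (j, !b)).2 = !(w.1 (j, b)).2 := by
  have := (mem_W.mp w.2) (j, b)
  simp only at this
  rw [this]

/-- elements without sign changes -/
theorem GEN_plain {n : ℕ} (w : W n) (h : ∀ j, (w.1 (j, true)).2 = true) : w ∈ GEN_M n := by
  have hinj : Function.Injective (fun j => (w.1 (j, true)).1) := by
    intro j j' hj
    have : w.1 (j, true) = w.1 (j', true) := Prod.ext hj (by rw [h, h])
    have := w.1.injective this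
    exact congrArg Prod.fst this
  set σ : Equiv.Perm (Fin n) := Equiv.ofBijective _ (Finite.injective_iff_bijective.mp hinj) with hσ
  have : w = GEN_iota n σ := by
    apply Subtype.ext
    apply Equiv.ext
    rintro ⟨j, b⟩
    rw [GEN_iota_apply]
    apply Prod.ext
    · rw [GEN_fst]; rfl
    · cases b
      · have := GEN_snd w j true
        rw [h] at this
        exact this
      · exact h j
  rw [this]
  exact GEN_iota_mem _ _

theorem GEN_all {n : ℕ} : ∀ (k : ℕ) (w : W n),
    (Finset.univ.filter (fun j => (w.1 (j, true)).2 = false)).card = k → w ∈ GEN_M n := by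
  intro k
  induction k with
  | zero =>
    intro w hw
    apply GEN_plain
    intro j
    rw [Finset.card_eq_zero] at hw
    by_contra hj
    have : j ∈ Finset.univ.filter (fun j => (w.1 (j, true)).2 = false) := by
      rw [Finset.mem_filter]
      exact ⟨Finset.mem_univ _, by simpa using hj⟩
    rw [hw] at this
    exact absurd this (Finset.notMem_empty _)
  | succ k ih =>
    intro w hw
    obtain ⟨i, hi⟩ : (Finset.univ.filter (fun j => (w.1 (j, true)).2 = false)).Nonempty := by
      rw [← Finset.card_pos]; omega
    have hi2 := (Finset.mem_filter.mp hi).2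
    have h1 : w * GEN_t n i ∈ GEN_M n := by
      apply ih
      have : Finset.univ.filter (fun j => ((w * GEN_t n i).1 (j, true)).2 = false) =
          (Finset.univ.filter (fun j => (w.1 (j, true)).2 = false)).erase i := by
        ext j
        rw [Finset.mem_erase, Finset.mem_filter, Finset.mem_filter]
        have e : (w * GEN_t n i).1 (j, true) = w.1 ((GEN_t n i).1 (j, true)) := rfl
        rw [e, GEN_t_apply]
        by_cases hj : j = i
        · subst hj
          rw [if_pos rfl]
          have := GEN_snd w j true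
          rw [hi2, Bool.not_true, Bool.not_false] at this
          simp [this]
        · rw [if_neg hj]
          simp [hj]
      rw [this, Finset.card_erase_of_mem hi, hw]
      rfl
    have h2 : w = (w * GEN_t n i) * GEN_t n i := by
      rw [mul_assoc]
      have : GEN_t n i * GEN_t n i = 1 := by
        apply Subtype.ext
        exact Equiv.swap_mul_self _ _
      rw [this, mul_one]
    rw [h2]
    exact mul_mem h1 (GEN_t_mem _ _)

theorem GEN : GEN_stmt := fun _ w => GEN_mem.mp (GEN_all _ w rfl)

end Pool.Agent.helper27.PC
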